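import Mathlib

/-!
Backward orbits of rational functions of degree at least two: the numbers of the preimages under the
iterates are unbounded, if the point is not exceptional.
-/

set_option autoImplicit false

namespace Run7.h383.MO

open Set Function

theorem unbounded_preimages {X : Type*} (f : X → X) (hs : Surjective f)
    (hfin : ∀ v, (f ⁻¹' {v}).Finite) (V : Set X) (hV : V.Finite)
    (h1 : ∀ v, v ∉ V → ∃ x y, x ≠ y ∧ f x = v ∧ f y = v) (a : X)
    (ha : {x | ∃ n : ℕ, f^[n] x = a}.Infinite) (c : ℕ) : ∃ n, c ≤ (f^[n] ⁻¹' {a}).ncard := by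
  have hstep : ∀ n, f^[n + 1] ⁻¹' {a} = f ⁻¹' (f^[n] ⁻¹' {a}) := by
    intro n
    ext x
    simp
  have hB : ∀ n, (f^[n] ⁻¹' {a}).Finite := by
    intro n
    induction n with
    | zero =>
      have : f^[0] ⁻¹' {a} = {a} := by ext x; simp
      rw [this]
      exact finite_singleton a
    | succ n ih =>
      rw [hstep]
      have : f ⁻¹' (f^[n] ⁻¹' {a}) = ⋃ v ∈ f^[n] ⁻¹' {a}, f ⁻¹' {v} := by
        ext x
        simp
      rw [this]
      exact ih.biUnion fun v _ => hfin v
  have himg : ∀ n, f '' (f^[n + 1] ⁻¹' {a}) = f^[n] ⁻¹' {a} := by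
    intro n
    rw [hstep]
    exact image_preimage_eq _ hs
  have hmono : ∀ n, (f^[n] ⁻¹' {a}).ncard ≤ (f^[n + 1] ⁻¹' {a}).ncard := by
    intro n
    rw [← himg n]
    exact ncard_image_le (hB (n + 1))
  by_contra hcon
  push Not at hcon
  have hex : ∃ n0, ∀ n, (f^[n] ⁻¹' {a}).ncard ≤ (f^[n0] ⁻¹' {a}).ncard := by
    by_contra h
    push Not at h
    have : ∀ k, ∃ n, k ≤ (f^[n] ⁻¹' {a}).ncard := by
      intro k
      induction k with
      | zero => exact ⟨0, Nat.zero_le _⟩
      | succ k ih =>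
        obtain ⟨n, hn⟩ := ih
        obtain ⟨m, hm⟩ := h n
        exact ⟨m, by omega⟩
    obtain ⟨n, hn⟩ := this c
    exact absurd hn (not_le.2 (hcon n))
  obtain ⟨n0, hn0⟩ := hex
  have hmono' : Monotone fun n => (f^[n] ⁻¹' {a}).ncard := monotone_nat_of_le_succ hmono
  have hsub : ∀ n, n0 ≤ n → f^[n] ⁻¹' {a} ⊆ V := by
    intro n hn v hv
    by_contra hvV
    obtain ⟨x, y, hxy, hx, hy⟩ := h1 v hvV
    have hxB : x ∈ f^[n + 1] ⁻¹' {a} := by
      rw [hstep, mem_preimage, hx]
      exact hv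
    have hyB : y ∈ f^[n + 1] ⁻¹' {a} := by
      rw [hstep, mem_preimage, hy]
      exact hv
    have h2 : (f '' (f^[n + 1] ⁻¹' {a})).ncard < (f^[n + 1] ⁻¹' {a}).ncard := by
      refine lt_of_le_of_ne (ncard_image_le (hB _)) fun h => ?_
      have h3 := (ncard_image_iff (hB _)).1 h
      exact hxy (h3 hxB hyB (hx.trans hy.symm))
    rw [himg] at h2
    have h3 := hn0 (n + 1)
    have h4 : (f^[n0] ⁻¹' {a}).ncard ≤ (f^[n] ⁻¹' {a}).ncard := hmono' hn
    omega
  refine ha ?_
  have : {x | ∃ n : ℕ, f^[n] x = a} ⊆ (⋃ n ∈ Iio n0, f^[n] ⁻¹' {a}) ∪ V := by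
    rintro x ⟨n, hn⟩
    by_cases h : n < n0
    · left
      exact mem_biUnion h hn
    · right
      exact hsub n (not_lt.1 h) hn
  refine Finite.subset (Finite.union ?_ hV) this
  exact (finite_Iio n0).biUnion fun n _ => hB n

open Polynomial

/-- the action of the rational function `P / Q` of degree `e` on the projective line -/
noncomputable def pf (P Q : ℂ[X]) (e : ℕ) : Option ℂ → Option ℂ
  | none => if Q.coeff e = 0 then none else some (P.coeff e / Q.coeff e)
  | some s => if Q.eval s = 0 then none else some (P.eval s / Q.eval s)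

/-- the polynomial of the preimages -/
noncomputable def hp (P Q : ℂ[X]) : Option ℂ → ℂ[X]
  | none => Q
  | some α => P - C α * Q

theorem pf_some_iff {P Q : ℂ[X]} (hc : IsCoprime P Q) (e : ℕ) (s : ℂ) (v : Option ℂ) :
    pf P Q e (some s) = v ↔ (hp P Q v).eval s = 0 := by
  have hne : ¬ (P.eval s = 0 ∧ Q.eval s = 0) := by
    rintro ⟨h1, h2⟩
    obtain ⟨a, b, hab⟩ := hc
    have := congrArg (Polynomial.eval s) hab
    simp [h1, h2] at this
  cases v with
  | none =>
    simp only [pf, hp]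
    split_ifs with h <;> simp [h]
  | some α =>
    simp only [pf, hp, eval_sub, eval_mul, eval_C]
    split_ifs with h
    · simp only [h, mul_zero, sub_zero, false_iff]
      exact fun h1 => hne ⟨h1, h⟩
    · rw [Option.some_inj, div_eq_iff h, sub_eq_zero]

theorem pf_none_iff {P Q : ℂ[X]} {e : ℕ} (he : P.coeff e ≠ 0 ∨ Q.coeff e ≠ 0) (v : Option ℂ) :
    pf P Q e none = v ↔ (hp P Q v).coeff e = 0 := by
  cases v with
  | none =>
    simp only [pf, hp]
    split_ifs with h <;> simp [h]
  | some α =>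
    simp only [pf, hp, coeff_sub, coeff_C_mul]
    split_ifs with h
    · simp only [h, mul_zero, sub_zero, false_iff]
      rcases he with he | he
      · exact he
      · exact absurd h he
    · rw [Option.some_inj, div_eq_iff h, sub_eq_zero]

variable {P Q : ℂ[X]} {e : ℕ}

theorem hp_deg (hP : P.natDegree ≤ e) (hQ : Q.natDegree ≤ e) (v : Option ℂ) :
    (hp P Q v).natDegree ≤ e := by
  cases v with
  | none => exact hQ
  | some α =>
    refine (natDegree_sub_le _ _).trans (max_le hP ?_)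
    exact (natDegree_C_mul_le _ _).trans hQ

theorem hp_ne (hc : IsCoprime P Q) (he : P.coeff e ≠ 0 ∨ Q.coeff e ≠ 0) (he1 : 1 ≤ e)
    (v : Option ℂ) : hp P Q v ≠ 0 := by
  have hdeg : ∀ R : ℂ[X], IsUnit R → R.coeff e = 0 := by
    intro R hR
    have h1 := natDegree_eq_zero_of_isUnit hR
    exact coeff_eq_zero_of_natDegree_lt (by omega)
  cases v with
  | none =>
    intro h
    change Q = 0 at h
    subst h
    have h1 : IsUnit P := isCoprime_zero_right.1 hc
    rcases he with he | he
    · exact he (hdeg P h1)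
    · exact he (by simp)
  | some α =>
    intro h
    change P - C α * Q = 0 at h
    have h1 : P = C α * Q := sub_eq_zero.1 h
    have h2 : IsUnit Q := by
      rw [h1] at hc
      have h3 : IsCoprime Q Q := IsCoprime.of_mul_left_right hc
      exact isCoprime_self.1 h3
    have h3 : Q.coeff e = 0 := hdeg Q h2
    rcases he with he | he
    · exact he (by rw [h1, coeff_C_mul, h3, mul_zero])
    · exact he h3

theorem pf_surj (hc : IsCoprime P Q) (he : P.coeff e ≠ 0 ∨ Q.coeff e ≠ 0) (he1 : 1 ≤ e) :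
    Surjective (pf P Q e) := by
  intro v
  by_cases h : (hp P Q v).degree = 0
  · refine ⟨none, (pf_none_iff he v).2 ?_⟩
    refine coeff_eq_zero_of_natDegree_lt ?_
    have := natDegree_eq_zero_iff_degree_le_zero.2 h.le
    omega
  · obtain ⟨s, hs⟩ := IsAlgClosed.exists_root _ h
    exact ⟨some s, (pf_some_iff hc e s v).2 hs⟩

theorem pf_fin (hc : IsCoprime P Q) (he : P.coeff e ≠ 0 ∨ Q.coeff e ≠ 0) (he1 : 1 ≤ e)
    (v : Option ℂ) : (pf P Q e ⁻¹' {v}).Finite := by
  have h0 := hp_ne hc he he1 v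
  have : pf P Q e ⁻¹' {v} ⊆ insert none (some '' {s | s ∈ (hp P Q v).roots.toFinset}) := by
    intro x hx
    cases x with
    | none => exact mem_insert _ _
    | some s =>
      right
      refine ⟨s, ?_, rfl⟩
      have h1 : (hp P Q v).eval s = 0 := (pf_some_iff hc e s v).1 hx
      simp [h0, h1]
  refine Finite.subset (Finite.insert _ (Finite.image _ ?_)) this
  exact Finset.finite_toSet _

/-- the values with only one preimage -/
noncomputable def tot (P Q : ℂ[X]) (e : ℕ) : Set (Option ℂ) :=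
  insert (pf P Q e none) ((fun s => pf P Q e (some s)) '' {s | (wronskian P Q).eval s = 0})

theorem tot_fin (hc : IsCoprime P Q) (he : P.coeff e ≠ 0 ∨ Q.coeff e ≠ 0) (he1 : 1 ≤ e) :
    (tot P Q e).Finite := by
  have hW : wronskian P Q ≠ 0 := by
    intro h
    have h1 := (hc.wronskian_eq_zero_iff).1 h
    have h2 := derivative_eq_zero.1 h1.1
    have h3 := derivative_eq_zero.1 h1.2
    rcases he with he | he
    · exact he (coeff_eq_zero_of_natDegree_lt (by omega))
    · exact he (coeff_eq_zero_of_natDegree_lt (by omega))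
  refine Finite.insert _ (Finite.image _ ?_)
  have : {s | (wronskian P Q).eval s = 0} ⊆ ((wronskian P Q).roots.toFinset : Set ℂ) := by
    intro s hs
    simp only [Finset.mem_coe, Multiset.mem_toFinset, mem_roots hW]
    exact hs
  exact (Finset.finite_toSet _).subset this

theorem two_of_notMem (hc : IsCoprime P Q) (hP : P.natDegree ≤ e) (hQ : Q.natDegree ≤ e)
    (he : P.coeff e ≠ 0 ∨ Q.coeff e ≠ 0) (he2 : 2 ≤ e) (v : Option ℂ) (hv : v ∉ tot P Q e) :
    ∃ x y, x ≠ y ∧ pf P Q e x = v ∧ pf P Q e y = v := by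
  have hH0 := hp_ne hc he (by omega) v
  have h1 : (hp P Q v).coeff e ≠ 0 := by
    intro h
    apply hv
    left
    exact ((pf_none_iff he v).2 h).symm
  have hdeg : (hp P Q v).natDegree = e :=
    le_antisymm (hp_deg hP hQ v) (le_natDegree_of_ne_zero h1)
  obtain ⟨γ, hγ⟩ := IsAlgClosed.exists_root (hp P Q v) (by
    intro h
    have := natDegree_eq_zero_iff_degree_le_zero.2 h.le
    omega)
  have hγv : pf P Q e (some γ) = v := (pf_some_iff hc e γ v).2 hγ
  have hW : (wronskian P Q).eval γ ≠ 0 := by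
    intro h
    apply hv
    right
    exact ⟨γ, h, hγv⟩
  have hder : (derivative (hp P Q v)).eval γ ≠ 0 := by
    intro h
    apply hW
    cases v with
    | none =>
      change Q.eval γ = 0 at hγ
      change (derivative Q).eval γ = 0 at h
      simp [wronskian, h, hγ]
    | some α =>
      change (P - C α * Q).eval γ = 0 at hγ
      change (derivative (P - C α * Q)).eval γ = 0 at h
      simp only [eval_sub, eval_mul, eval_C, derivative_sub, derivative_C_mul] at hγ h
      simp only [wronskian, eval_sub, eval_mul]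
      linear_combination (derivative Q).eval γ * hγ - Q.eval γ * h
  obtain ⟨G, hG⟩ := dvd_iff_isRoot.2 hγ
  have hG0 : G ≠ 0 := by
    rintro rfl
    exact hH0 (by rw [hG, mul_zero])
  have hGdeg : G.natDegree = e - 1 := by
    have h2 : (hp P Q v).natDegree = 1 + G.natDegree := by
      rw [hG, natDegree_mul (X_sub_C_ne_zero γ) hG0, natDegree_X_sub_C]
    omega
  obtain ⟨δ, hδ⟩ := IsAlgClosed.exists_root G (by
    intro h
    have := natDegree_eq_zero_iff_degree_le_zero.2 h.le
    omega)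
  have hδγ : γ ≠ δ := by
    rintro rfl
    apply hder
    rw [hG, derivative_mul]
    simp [hδ.eq_zero]
  refine ⟨some γ, some δ, by simpa using hδγ, hγv, (pf_some_iff hc e δ v).2 ?_⟩
  rw [hG, eval_mul, hδ.eq_zero, mul_zero]

/-- non-exceptional points have many preimages under some iterate -/
theorem many_preimages (hc : IsCoprime P Q) (hP : P.natDegree ≤ e) (hQ : Q.natDegree ≤ e)
    (he : P.coeff e ≠ 0 ∨ Q.coeff e ≠ 0) (he2 : 2 ≤ e) (a : Option ℂ)
    (ha : {x | ∃ n : ℕ, (pf P Q e)^[n] x = a}.Infinite) (c : ℕ) :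
    ∃ n, c ≤ ((pf P Q e)^[n] ⁻¹' {a}).ncard :=
  unbounded_preimages _ (pf_surj hc he (by omega)) (pf_fin hc he (by omega)) (tot P Q e)
    (tot_fin hc he (by omega)) (two_of_notMem hc hP hQ he he2) a ha c

theorem iter_fin {X : Type*} (f : X → X) (hfin : ∀ v, (f ⁻¹' {v}).Finite) (a : X) (n : ℕ) :
    (f^[n] ⁻¹' {a}).Finite := by
  induction n with
  | zero =>
    have : f^[0] ⁻¹' {a} = {a} := by ext x; simp
    rw [this]
    exact finite_singleton a
  | succ n ih =>
    have : f^[n + 1] ⁻¹' {a} = ⋃ v ∈ f^[n] ⁻¹' {a}, f ⁻¹' {v} := by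
      ext x
      simp
    rw [this]
    exact ih.biUnion fun v _ => hfin v

theorem iter_mono {X : Type*} (f : X → X) (hs : Surjective f)
    (hfin : ∀ v, (f ⁻¹' {v}).Finite) (a : X) {n m : ℕ} (h : n ≤ m) :
    (f^[n] ⁻¹' {a}).ncard ≤ (f^[m] ⁻¹' {a}).ncard := by
  have hmono : ∀ n, (f^[n] ⁻¹' {a}).ncard ≤ (f^[n + 1] ⁻¹' {a}).ncard := by
    intro n
    have h1 : f^[n + 1] ⁻¹' {a} = f ⁻¹' (f^[n] ⁻¹' {a}) := by
      ext x
      simp
    have h2 : f '' (f^[n + 1] ⁻¹' {a}) = f^[n] ⁻¹' {a} := by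
      rw [h1]
      exact image_preimage_eq _ hs
    rw [← h2]
    exact ncard_image_le (iter_fin f hfin a (n + 1))
  exact monotone_nat_of_le_succ (f := fun n => (f^[n] ⁻¹' {a}).ncard) hmono h

/-- non-exceptional points have at least `c` finite preimages under all the iterates from some one
on -/
theorem many_finite (hc : IsCoprime P Q) (hP : P.natDegree ≤ e) (hQ : Q.natDegree ≤ e)
    (he : P.coeff e ≠ 0 ∨ Q.coeff e ≠ 0) (he2 : 2 ≤ e) (a : Option ℂ)
    (ha : {s : ℂ | ∃ n : ℕ, (pf P Q e)^[n] (some s) = a}.Infinite) (c : ℕ) :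
    ∃ n, ∀ m, n ≤ m → {s : ℂ | (pf P Q e)^[m] (some s) = a}.Finite ∧
      c ≤ {s : ℂ | (pf P Q e)^[m] (some s) = a}.ncard := by
  have hinj : Injective (some : ℂ → Option ℂ) := Option.some_injective ℂ
  have ha' : {x | ∃ n : ℕ, (pf P Q e)^[n] x = a}.Infinite := by
    refine (ha.image (f := some) hinj.injOn).mono ?_
    rintro _ ⟨s, hs, rfl⟩
    exact hs
  obtain ⟨n, hn⟩ := many_preimages hc hP hQ he he2 a ha' (c + 1)
  refine ⟨n, fun m hm => ?_⟩
  have h1 := iter_mono (pf P Q e) (pf_surj hc he (by omega)) (pf_fin hc he (by omega)) a hm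
  have h2 := iter_fin (pf P Q e) (pf_fin hc he (by omega)) a m
  have h3 : (some '' {s : ℂ | (pf P Q e)^[m] (some s) = a}) ⊆ (pf P Q e)^[m] ⁻¹' {a} := by
    rintro _ ⟨s, hs, rfl⟩
    exact hs
  have h4 : {s : ℂ | (pf P Q e)^[m] (some s) = a}.Finite :=
    Finite.of_finite_image (h2.subset h3) hinj.injOn
  refine ⟨h4, ?_⟩
  have h5 : (pf P Q e)^[m] ⁻¹' {a} ⊆
      insert none (some '' {s : ℂ | (pf P Q e)^[m] (some s) = a}) := by
    intro x hx
    cases x with
    | none => exact mem_insert _ _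
    | some s => exact Or.inr ⟨s, hx, rfl⟩
  have h6 := ncard_le_ncard h5 ((h4.image _).insert _)
  have h7 := ncard_insert_le (none : Option ℂ) (some '' {s : ℂ | (pf P Q e)^[m] (some s) = a})
  rw [ncard_image_of_injective _ hinj] at h7
  omega

end Run7.h383.MO
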