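import Pool.Agent.Run7.h383.MO.Main
import Pool.Agent.Run7.h383.MO.Back

/-!
One rational function: points with infinite backward orbits have many preimages; parameters in the
images of finitely generated multiplicative groups.
-/

set_option autoImplicit false

namespace Run7.h383.MO

open MvPolynomial Pool.Agent.R424.MX Pool.Agent.Y152.RP.FamM

variable {K : Subfield ℂ}

/-- the point of the projective line with the given homogeneous coordinates -/
noncomputable def cls (z : ℂ × ℂ) : Option ℂ := if z.2 = 0 then none else some (z.1 / z.2)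

/-- numerator and denominator of the function with complex coefficients -/
noncomputable def PC (Φ : Maps K 1) : Polynomial ℂ := (Φ.P 0).map (algebraMap K ℂ)

noncomputable def QC (Φ : Maps K 1) : Polynomial ℂ := (Φ.Q 0).map (algebraMap K ℂ)

theorem form_ne {Φ : Maps K 1} (hc : IsCoprime (Φ.P 0) (Φ.Q 0))
    (he : (PC Φ).coeff (Φ.e 0) ≠ 0 ∨ (QC Φ).coeff (Φ.e 0) ≠ 0) {z : ℂ × ℂ} (hz : z ≠ (0, 0)) :
    ¬ (form (Φ.P 0) (Φ.e 0) z = 0 ∧ form (Φ.Q 0) (Φ.e 0) z = 0) := by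
  rintro ⟨h1, h2⟩
  obtain ⟨x, y⟩ := z
  by_cases hy : y = 0
  · subst hy
    have hx : x ≠ 0 := by
      rintro rfl
      exact hz rfl
    rw [form_zero] at h1 h2
    have h3 : x ^ Φ.e 0 ≠ 0 := pow_ne_zero _ hx
    have h4 := (mul_eq_zero.1 h1).resolve_right h3
    have h5 := (mul_eq_zero.1 h2).resolve_right h3
    rcases he with he | he
    · apply he
      rw [PC, Polynomial.coeff_map]
      exact h4
    · apply he
      rw [QC, Polynomial.coeff_map]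
      exact h5
  · rw [form_eq (Φ.degP 0) x hy] at h1
    rw [form_eq (Φ.degQ 0) x hy] at h2
    have h3 : y ^ Φ.e 0 ≠ 0 := pow_ne_zero _ hy
    have h4 := (mul_eq_zero.1 h1).resolve_left h3
    have h5 := (mul_eq_zero.1 h2).resolve_left h3
    obtain ⟨a, b, hab⟩ := hc
    have h6 := congrArg (Polynomial.aeval (x / y)) hab
    rw [map_add, map_mul, map_mul, h4, h5] at h6
    simp at h6

theorem step {Φ : Maps K 1} {z : ℂ × ℂ} (hz : z ≠ (0, 0)) :
    cls (form (Φ.P 0) (Φ.e 0) z, form (Φ.Q 0) (Φ.e 0) z) =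
      pf (PC Φ) (QC Φ) (Φ.e 0) (cls z) := by
  obtain ⟨x, y⟩ := z
  by_cases hy : y = 0
  · subst hy
    have hx : x ≠ 0 := by
      rintro rfl
      exact hz rfl
    have h3 : x ^ Φ.e 0 ≠ 0 := pow_ne_zero _ hx
    have h1 : cls (x, (0 : ℂ)) = none := by simp [cls]
    rw [h1]
    simp only [pf, cls, form_zero, PC, QC, Polynomial.coeff_map, mul_eq_zero, h3, or_false]
    rw [mul_div_mul_right _ _ h3]
    rfl
  · have h1 : cls (x, y) = some (x / y) := by simp [cls, hy]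
    have h3 : y ^ Φ.e 0 ≠ 0 := pow_ne_zero _ hy
    rw [h1]
    simp only [pf, cls, form_eq (Φ.degP 0) x hy, form_eq (Φ.degQ 0) x hy, PC, QC, mul_eq_zero, h3,
      false_or, Polynomial.eval_map_algebraMap]
    rw [mul_div_mul_left _ _ h3]

theorem act_ne {Φ : Maps K 1} (hc : IsCoprime (Φ.P 0) (Φ.Q 0))
    (he : (PC Φ).coeff (Φ.e 0) ≠ 0 ∨ (QC Φ).coeff (Φ.e 0) ≠ 0) (w : List (Fin 1)) (s : ℂ) :
    act Φ w (s, 1) ≠ (0, 0) := by
  induction w with
  | nil =>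
    intro h
    have := congrArg Prod.snd h
    exact one_ne_zero this
  | cons i w ih =>
    intro h
    have hi : i = 0 := Subsingleton.elim _ _
    subst hi
    exact form_ne hc he ih ⟨congrArg Prod.fst h, congrArg Prod.snd h⟩

theorem cls_act {Φ : Maps K 1} (hc : IsCoprime (Φ.P 0) (Φ.Q 0))
    (he : (PC Φ).coeff (Φ.e 0) ≠ 0 ∨ (QC Φ).coeff (Φ.e 0) ≠ 0) (w : List (Fin 1)) (s : ℂ) :
    cls (act Φ w (s, 1)) = (pf (PC Φ) (QC Φ) (Φ.e 0))^[w.length] (some s) := by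
  induction w with
  | nil => simp [act, cls]
  | cons i w ih =>
    have hi : i = 0 := Subsingleton.elim _ _
    subst hi
    rw [List.length_cons, Function.iterate_succ_apply', ← ih]
    exact step (act_ne hc he w s)

theorem value_iff_cls (Φ : Maps K 1) (w : List (Fin 1)) (s t : ℂ) :
    Value Φ w s t ↔ cls (act Φ w (s, 1)) = some t := by
  unfold Value cls
  split_ifs with h
  · simp [h]
  · simp [h]

/-- one function: points with infinite backward orbits have many preimages -/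
theorem exists_length {M : ℕ} {Φ : Maps K 1} (hc : IsCoprime (Φ.P 0) (Φ.Q 0)) (he2 : 2 ≤ Φ.e 0)
    (he : (Φ.P 0).natDegree = Φ.e 0 ∨ (Φ.Q 0).natDegree = Φ.e 0) (D : Fin M → Finset ℂ) (L : ℕ)
    (h : ∀ I : Finset (Fin M), M ≤ I.card + L → ∃ l ∈ I, ∃ α ∈ D l,
      {s : ℂ | ∃ w, Value Φ w s α}.Infinite) :
    ∃ m₀ : ℕ, ∀ w : List (Fin 1), w.length = m₀ → ∀ I : Finset (Fin M), M ≤ I.card + L →
      3 ≤ (preV Φ D w I).ncard := by
  classical
  have hlead : ∀ p : Polynomial K, p.natDegree = Φ.e 0 →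
      (p.map (algebraMap K ℂ)).coeff (Φ.e 0) ≠ 0 := by
    intro p hp h0
    rw [Polynomial.coeff_map] at h0
    have h1 : p.coeff p.natDegree = 0 := by
      rw [hp]
      exact (algebraMap K ℂ).injective (by rw [h0, map_zero])
    have h2 : p = 0 := Polynomial.leadingCoeff_eq_zero.1 h1
    rw [h2, Polynomial.natDegree_zero] at hp
    omega
  have he' : (PC Φ).coeff (Φ.e 0) ≠ 0 ∨ (QC Φ).coeff (Φ.e 0) ≠ 0 := by
    rcases he with he | he
    · exact Or.inl (hlead _ he)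
    · exact Or.inr (hlead _ he)
  have hc' : IsCoprime (PC Φ) (QC Φ) := hc.map (Polynomial.mapRingHom (algebraMap K ℂ))
  have hdP : (PC Φ).natDegree ≤ Φ.e 0 := (Polynomial.natDegree_map_le).trans (Φ.degP 0)
  have hdQ : (QC Φ).natDegree ≤ Φ.e 0 := (Polynomial.natDegree_map_le).trans (Φ.degQ 0)
  set f := pf (PC Φ) (QC Φ) (Φ.e 0) with hf
  have hval : ∀ (w : List (Fin 1)) (s t : ℂ), Value Φ w s t ↔ f^[w.length] (some s) = some t := by
    intro w s t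
    rw [value_iff_cls, cls_act hc he']
  have hback : ∀ α : ℂ, {s : ℂ | ∃ w, Value Φ w s α}.Infinite →
      {s : ℂ | ∃ n : ℕ, f^[n] (some s) = some α}.Infinite := by
    intro α hα
    refine hα.mono ?_
    rintro s ⟨w, hw⟩
    exact ⟨w.length, (hval w s α).1 hw⟩
  have hmany : ∀ α : ℂ, ∃ n, {s : ℂ | ∃ w, Value Φ w s α}.Infinite → ∀ m, n ≤ m →
      {s : ℂ | f^[m] (some s) = some α}.Finite ∧ 3 ≤ {s : ℂ | f^[m] (some s) = some α}.ncard := by
    intro α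
    by_cases hα : {s : ℂ | ∃ w, Value Φ w s α}.Infinite
    · obtain ⟨n, hn⟩ := many_finite hc' hdP hdQ he' he2 (some α) (hback α hα) 3
      exact ⟨n, fun _ => hn⟩
    · exact ⟨0, fun h => absurd h hα⟩
  choose nn hnn using hmany
  refine ⟨(Finset.univ.biUnion D).sup nn, fun w hw I hI => ?_⟩
  obtain ⟨l, hl, α, hα, hinf⟩ := h I hI
  have hle : nn α ≤ w.length := by
    rw [hw]
    exact Finset.le_sup (f := nn) (Finset.mem_biUnion.2 ⟨l, Finset.mem_univ _, hα⟩)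
  obtain ⟨-, h2⟩ := hnn α hinf w.length hle
  have hsub : {s : ℂ | f^[w.length] (some s) = some α} ⊆ preV Φ D w I := by
    intro s hs
    exact ⟨l, hl, α, hα, (hval w s α).2 hs⟩
  have hfin : (preV Φ D w I).Finite := by
    have h3 : preV Φ D w I ⊆ ⋃ a ∈ Finset.univ.biUnion D, {s : ℂ | f^[w.length] (some s) = some a} := by
      rintro s ⟨l', hl', a, ha, hs⟩
      rw [Set.mem_iUnion₂]
      exact ⟨a, Finset.mem_biUnion.2 ⟨l', Finset.mem_univ _, ha⟩, (hval w s a).1 hs⟩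
    refine Set.Finite.subset ?_ h3
    refine Set.Finite.biUnion (Finset.finite_toSet _) fun a _ => ?_
    have h4 := iter_fin f (pf_fin hc' he' (by omega)) (some a) w.length
    refine Set.Finite.of_finite_image (f := some) (h4.subset ?_) (Option.some_injective ℂ).injOn
    rintro _ ⟨s, hs, rfl⟩
    exact hs
  exact h2.trans (Set.ncard_le_ncard hsub hfin)

/-- parameters in the images of finitely generated multiplicative groups -/
theorem units_abs {M L : ℕ} {D : Fin M → Finset ℂ} {Bad : ℂ → Prop} (hp : Pulls K L D Bad)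
    {r : ℕ} (Φ : Maps K r) (w : List (Fin r))
    (hfin : (preV Φ D w Finset.univ).Finite)
    (h0 : ∀ I : Finset (Fin M), M ≤ I.card + L → ∃ s ∈ preV Φ D w I, s ≠ 0)
    (U : Finset ℂˣ) (hU : ∀ u ∈ U, IsAlgebraic K (u : ℂ)) :
    {u : ℂˣ | u ∈ Subgroup.closure (U : Set ℂˣ) ∧ ∃ t : ℂ, Value Φ w (u : ℂ) t ∧ Bad t}.Finite := by
  classical
  obtain ⟨s₀, hs₀, -⟩ := h0 Finset.univ (by rw [Finset.card_univ, Fintype.card_fin]; omega)
  have hnc := nonconst_of Φ D w Finset.univ hfin ⟨s₀, hs₀⟩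
  let F : Finset ℂ := (U.image fun u : ℂˣ => (u : ℂ)) ∪ (U.image fun u : ℂˣ => ((u⁻¹ : ℂˣ) : ℂ))
  have hF : ∀ z ∈ F, IsAlgebraic K z := by
    intro z hz
    rcases Finset.mem_union.1 hz with h | h
    · obtain ⟨u, hu, rfl⟩ := Finset.mem_image.1 h
      exact hU u hu
    · obtain ⟨u, hu, rfl⟩ := Finset.mem_image.1 h
      rw [Units.val_inv_eq_inv_val]
      exact (hU u hu).inv
  obtain ⟨-, h3⟩ := hp F hF (wp Φ w).1 (wp Φ w).2 hnc
  have h4 := h3 fun I hI => by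
    obtain ⟨s, hs, hs0⟩ := h0 I hI
    rw [← preR_eq Φ D w hnc I] at hs
    exact ⟨s, hs, hs0⟩
  have hmem : ∀ u ∈ Subgroup.closure (U : Set ℂˣ), (u : ℂ) ∈ Subring.closure (F : Set ℂ) ∧
      ((u⁻¹ : ℂˣ) : ℂ) ∈ Subring.closure (F : Set ℂ) := by
    intro u hu
    induction hu using Subgroup.closure_induction with
    | mem x hx =>
      exact ⟨Subring.subset_closure (Finset.mem_union_left _
          (Finset.mem_image_of_mem (fun u : ℂˣ => (u : ℂ)) hx)),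
        Subring.subset_closure (Finset.mem_union_right _
          (Finset.mem_image_of_mem (fun u : ℂˣ => ((u⁻¹ : ℂˣ) : ℂ)) hx))⟩
    | one => simp
    | mul x y _ _ hx hy =>
      refine ⟨?_, ?_⟩
      · rw [Units.val_mul]
        exact mul_mem hx.1 hy.1
      · rw [mul_inv, Units.val_mul]
        exact mul_mem hx.2 hy.2
    | inv x _ hx =>
      rw [inv_inv]
      exact ⟨hx.2, hx.1⟩
  have hinj : Set.InjOn (fun u : ℂˣ => (u : ℂ)) Set.univ := fun u _ v _ h => Units.ext h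
  refine Set.Finite.of_finite_image (f := fun u : ℂˣ => (u : ℂ)) (h4.subset ?_)
    (hinj.mono (Set.subset_univ _))
  rintro _ ⟨u, ⟨hu, t, ht, hbad⟩, rfl⟩
  obtain ⟨hu1, hu2⟩ := hmem u hu
  rw [value_iff] at ht
  refine ⟨⟨hu1, u.ne_zero, ?_⟩, ht.1, ?_⟩
  · rw [← Units.val_inv_eq_inv_val]
    exact hu2
  · rw [ht.2]
    exact hbad

/-- the three conclusions -/
def Conclusions (K : Subfield ℂ) {M : ℕ} (L : ℕ) (D : Fin M → Finset ℂ) (Bad : ℂ → Prop) : Prop :=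
  (∀ (r : ℕ) (Φ : Maps K r) (m₀ : ℕ),
    (∀ w : List (Fin r), w.length = m₀ → ∀ I : Finset (Fin M), M ≤ I.card + L →
      3 ≤ {s : ℂ | ∃ l ∈ I, ∃ α ∈ D l, Value Φ w s α}.ncard) →
    (∀ t₀ : ℂ, IsAlgebraic K t₀ → {t : ℂ | (∃ w, Value Φ w t₀ t) ∧ Bad t}.Finite) ∧
    ∀ F : Finset ℂ, (∀ z ∈ F, IsAlgebraic K z) →
      {t : ℂ | (∃ s ∈ Subfield.closure (F : Set ℂ), ∃ w : List (Fin r), m₀ ≤ w.length ∧
        Value Φ w s t) ∧ Bad t}.Finite) ∧
  (∀ Φ : Maps K 1, IsCoprime (Φ.P 0) (Φ.Q 0) → 2 ≤ Φ.e 0 →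
    ((Φ.P 0).natDegree = Φ.e 0 ∨ (Φ.Q 0).natDegree = Φ.e 0) →
    (∀ I : Finset (Fin M), M ≤ I.card + L → ∃ l ∈ I, ∃ α ∈ D l,
      {s : ℂ | ∃ w, Value Φ w s α}.Infinite) →
    (∀ t₀ : ℂ, IsAlgebraic K t₀ → {t : ℂ | (∃ w, Value Φ w t₀ t) ∧ Bad t}.Finite) ∧
    ∃ m₀ : ℕ, ∀ F : Finset ℂ, (∀ z ∈ F, IsAlgebraic K z) →
      {t : ℂ | (∃ s ∈ Subfield.closure (F : Set ℂ), ∃ w : List (Fin 1), m₀ ≤ w.length ∧
        Value Φ w s t) ∧ Bad t}.Finite) ∧
  ∀ (r : ℕ) (Φ : Maps K r) (w : List (Fin r)), {s : ℂ | ∃ l, ∃ α ∈ D l, Value Φ w s α}.Finite →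
    (∀ I : Finset (Fin M), M ≤ I.card + L → ∃ l ∈ I, ∃ α ∈ D l, ∃ s, s ≠ 0 ∧ Value Φ w s α) →
    ∀ U : Finset ℂˣ, (∀ u ∈ U, IsAlgebraic K (u : ℂ)) →
      {u : ℂˣ | u ∈ Subgroup.closure (U : Set ℂˣ) ∧ ∃ t : ℂ, Value Φ w (u : ℂ) t ∧ Bad t}.Finite

theorem conclusions {M L : ℕ} {D : Fin M → Finset ℂ} {Bad : ℂ → Prop} (hp : Pulls K L D Bad) :
    Conclusions K L D Bad := by
  refine ⟨fun r Φ m₀ h => ?_, fun Φ hc he2 he h => ?_, fun r Φ w hfin h0 U hU => ?_⟩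
  · have hw : ∀ w : List (Fin r), w.length = m₀ → ∀ F : Finset ℂ, (∀ z ∈ F, IsAlgebraic K z) →
        {t : ℂ | (∃ s ∈ Subfield.closure (F : Set ℂ), Value Φ w s t) ∧ Bad t}.Finite :=
      fun w hw F hF => word_abs hp F hF Φ w (h w hw)
    exact ⟨fun t₀ ht₀ => orbit_abs Φ m₀ Bad hw t₀ ht₀, fun F hF => orbits_abs Φ m₀ Bad hw F hF⟩
  · obtain ⟨m₀, hm₀⟩ := exists_length hc he2 he D L h
    have hw : ∀ w : List (Fin 1), w.length = m₀ → ∀ F : Finset ℂ, (∀ z ∈ F, IsAlgebraic K z) →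
        {t : ℂ | (∃ s ∈ Subfield.closure (F : Set ℂ), Value Φ w s t) ∧ Bad t}.Finite :=
      fun w hw F hF => word_abs hp F hF Φ w (hm₀ w hw)
    exact ⟨fun t₀ ht₀ => orbit_abs Φ m₀ Bad hw t₀ ht₀, m₀, fun F hF =>
      orbits_abs Φ m₀ Bad hw F hF⟩
  · refine units_abs hp Φ w ?_ (fun I hI => ?_) U hU
    · refine hfin.subset ?_
      rintro s ⟨l, -, α, hα, hs⟩
      exact ⟨l, α, hα, hs⟩
    · obtain ⟨l, hl, α, hα, s, hs0, hs⟩ := h0 I hI
      exact ⟨s, ⟨l, hl, α, hα, hs⟩, hs0⟩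

end Run7.h383.MO
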