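import Mathlib

/-!
Finitely many rational functions over a subfield of the complex numbers and the semigroup generated by
them, acting on the projective line in homogeneous coordinates.
-/

set_option autoImplicit false

namespace Run7.h383.MO

open Polynomial

/-- The form `∑ p_j x^j y^(e-j)` of degree `e` with the coefficients of the polynomial `p`, at the point
`z = (x, y)`. -/
noncomputable def form {K : Subfield ℂ} (p : Polynomial K) (e : ℕ) (z : ℂ × ℂ) : ℂ :=
  ∑ j ∈ Finset.range (e + 1), ((p.coeff j : K) : ℂ) * z.1 ^ j * z.2 ^ (e - j)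

/-- `r` rational functions `φ_i = P_i / Q_i` with numerators and denominators of degree at most `e_i` -/
structure Maps (K : Subfield ℂ) (r : ℕ) where
  P : Fin r → Polynomial K
  Q : Fin r → Polynomial K
  e : Fin r → ℕ
  degP : ∀ i, (P i).natDegree ≤ e i
  degQ : ∀ i, (Q i).natDegree ≤ e i

/-- The image `φ_{i_1} (φ_{i_2} (… (φ_{i_m} (z))))` of the point with the homogeneous coordinates `z`,
for the word `i_1 i_2 … i_m`. -/
noncomputable def act {K : Subfield ℂ} {r : ℕ} (Φ : Maps K r) : List (Fin r) → ℂ × ℂ → ℂ × ℂ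
  | [], z => z
  | i :: w, z => (form (Φ.P i) (Φ.e i) (act Φ w z), form (Φ.Q i) (Φ.e i) (act Φ w z))

/-- The composite `φ_{i_1} ∘ … ∘ φ_{i_m}` for the word `w = i_1 … i_m` has the finite value `t` at the
number `s` (the intermediate values may be infinite). -/
def Value {K : Subfield ℂ} {r : ℕ} (Φ : Maps K r) (w : List (Fin r)) (s t : ℂ) : Prop :=
  (act Φ w (s, 1)).2 ≠ 0 ∧ (act Φ w (s, 1)).1 / (act Φ w (s, 1)).2 = t

variable {K : Subfield ℂ} {r : ℕ}

theorem form_eq {p : Polynomial K} {e : ℕ} (hp : p.natDegree ≤ e) (x : ℂ) {y : ℂ} (hy : y ≠ 0) :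
    form p e (x, y) = y ^ e * Polynomial.aeval (x / y) p := by
  rw [Polynomial.aeval_eq_sum_range' (Nat.lt_succ_of_le hp), form, Finset.mul_sum]
  refine Finset.sum_congr rfl fun j hj => ?_
  have hj' : j ≤ e := Nat.lt_succ_iff.1 (Finset.mem_range.1 hj)
  have h1 : y ^ e = y ^ (e - j) * y ^ j := by rw [← pow_add, Nat.sub_add_cancel hj']
  rw [Algebra.smul_def, h1, div_pow]
  change ((p.coeff j : K) : ℂ) * x ^ j * y ^ (e - j) =
    y ^ (e - j) * y ^ j * (((p.coeff j : K) : ℂ) * (x ^ j / y ^ j))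
  field_simp

theorem form_one {p : Polynomial K} {e : ℕ} (hp : p.natDegree ≤ e) (x : ℂ) :
    form p e (x, 1) = Polynomial.aeval x p := by
  rw [form_eq hp x one_ne_zero, one_pow, one_mul, div_one]

theorem form_zero (p : Polynomial K) (e : ℕ) (x : ℂ) :
    form p e (x, 0) = ((p.coeff e : K) : ℂ) * x ^ e := by
  rw [form, Finset.sum_eq_single e]
  · simp
  · intro j hj hje
    have hj' : j < e := lt_of_le_of_ne (Nat.lt_succ_iff.1 (Finset.mem_range.1 hj)) hje
    simp [Nat.sub_ne_zero_of_lt hj']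
  · intro h
    exact absurd (Finset.mem_range.2 (Nat.lt_succ_self e)) h

theorem form_smul (p : Polynomial K) (e : ℕ) (c : ℂ) (z : ℂ × ℂ) :
    form p e (c * z.1, c * z.2) = c ^ e * form p e z := by
  rw [form, form, Finset.mul_sum]
  refine Finset.sum_congr rfl fun j hj => ?_
  have hj' : j ≤ e := Nat.lt_succ_iff.1 (Finset.mem_range.1 hj)
  have h1 : c ^ e = c ^ (e - j) * c ^ j := by rw [← pow_add, Nat.sub_add_cancel hj']
  rw [h1]
  simp only [mul_pow]
  ring

/-- the action respects the proportionality of coordinate vectors -/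
theorem act_smul (Φ : Maps K r) (w : List (Fin r)) {c : ℂ} (hc : c ≠ 0) (z : ℂ × ℂ) :
    ∃ d : ℂ, d ≠ 0 ∧ act Φ w (c * z.1, c * z.2) = (d * (act Φ w z).1, d * (act Φ w z).2) := by
  induction w with
  | nil => exact ⟨c, hc, rfl⟩
  | cons i w ih =>
    obtain ⟨d, hd, h⟩ := ih
    refine ⟨d ^ Φ.e i, pow_ne_zero _ hd, ?_⟩
    simp only [act, h, form_smul]

theorem act_append (Φ : Maps K r) (w w' : List (Fin r)) (z : ℂ × ℂ) :
    act Φ (w ++ w') z = act Φ w (act Φ w' z) := by
  induction w with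
  | nil => rfl
  | cons i w ih => simp only [List.cons_append, act, ih]

/-- the values of the forms are in the field generated by the coefficients and the coordinates -/
theorem act_mem (Φ : Maps K r) (E : Subfield ℂ)
    (hP : ∀ i j, (((Φ.P i).coeff j : K) : ℂ) ∈ E) (hQ : ∀ i j, (((Φ.Q i).coeff j : K) : ℂ) ∈ E)
    (w : List (Fin r)) (z : ℂ × ℂ) (h1 : z.1 ∈ E) (h2 : z.2 ∈ E) :
    (act Φ w z).1 ∈ E ∧ (act Φ w z).2 ∈ E := by
  induction w with
  | nil => exact ⟨h1, h2⟩
  | cons i w ih =>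
    refine ⟨?_, ?_⟩
    · change form (Φ.P i) (Φ.e i) (act Φ w z) ∈ E
      unfold form
      exact sum_mem fun j _ => mul_mem (mul_mem (hP i j) (pow_mem ih.1 _)) (pow_mem ih.2 _)
    · change form (Φ.Q i) (Φ.e i) (act Φ w z) ∈ E
      unfold form
      exact sum_mem fun j _ => mul_mem (mul_mem (hQ i j) (pow_mem ih.1 _)) (pow_mem ih.2 _)

/-- numerator and denominator of the composite of the word `w` -/
noncomputable def wp (Φ : Maps K r) : List (Fin r) → Polynomial K × Polynomial K
  | [] => (X, 1)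
  | i :: w => (∑ j ∈ Finset.range (Φ.e i + 1),
        C ((Φ.P i).coeff j) * (wp Φ w).1 ^ j * (wp Φ w).2 ^ (Φ.e i - j),
      ∑ j ∈ Finset.range (Φ.e i + 1),
        C ((Φ.Q i).coeff j) * (wp Φ w).1 ^ j * (wp Φ w).2 ^ (Φ.e i - j))

theorem act_wp (Φ : Maps K r) (w : List (Fin r)) (s : ℂ) :
    act Φ w (s, 1) = (Polynomial.aeval s (wp Φ w).1, Polynomial.aeval s (wp Φ w).2) := by
  induction w with
  | nil => simp [act, wp]
  | cons i w ih =>
    simp only [act, wp, ih, form, map_sum, map_mul, map_pow, aeval_C]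
    rfl

end Run7.h383.MO
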