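import Pool.Agent.Run7.h383.MO.Main
import Pool.Agent.R424.FD.FamM

/-!
Families with few degenerate members: pull-backs by rational functions.
-/

set_option autoImplicit false

namespace Run7.h383.MO

open MvPolynomial Pool.Agent.Y152.RP.FamM
open Pool.Agent.R424.MX (order ratl hmv hom_hmv hom_C_mul scaledImage_hmv pos_hmv NonConst preR
  mem_preR ram ram_pos order_hm alg_preR exists_bound hm isSquare_of_mul)
open Pool.Agent.R424.FD (Independent L1 L2)

variable {K : Subfield ℂ}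

theorem ind_hmE {P Q : Polynomial K} (hPQ : NonConst P Q) {e n k₀ M : ℕ} (m T : ℕ)
    (c : Fin n ⊕ Fin k₀ → Polynomial K) (he : ∀ i, (c i).natDegree ≤ e) (D : Fin M → Finset ℂ)
    (h : Independent m T c D) :
    Independent m T (fun i => hm P Q e (c i)) (fun l => preR P Q (D l)) := by
  have hc : ∀ l, ∀ α ∈ D l, ∀ i, c i ≠ 0 := by
    intro l α hα i h0
    have h1 := h.1 l α hα i
    unfold order at h1
    rw [h0, Polynomial.map_zero, Polynomial.rootMultiplicity_zero] at h1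
    exact lt_irrefl _ h1
  refine ⟨fun l β hβ i => ?_, fun f α hf hα A hA1 hA2 hA3 q hq hqT hqT2 hsq => ?_,
    fun s α b hα hs hb => ?_⟩
  · rw [mem_preR hPQ] at hβ
    rw [order_hm hPQ (hc l _ hβ.2 i) (he i) hβ.1]
    exact Nat.mul_pos (h.1 l _ hβ.2 i) (ram_pos hPQ hβ.1)
  · have hα' : ∀ l, Polynomial.aeval (α l) Q ≠ 0 ∧ ratl P Q (α l) ∈ D (f l) := fun l =>
      (mem_preR hPQ _ _).1 (hα l)
    refine h.2.1 f (fun l => ratl P Q (α l)) hf (fun l => (hα' l).2) A hA1 hA2 hA3 q hq hqT hqT2 ?_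
    have h1 : ∀ l, ∏ i ∈ A l, order (hm P Q e (c (Sum.inl i))) (α l) =
        (∏ i ∈ A l, order (c (Sum.inl i)) (ratl P Q (α l))) *
          (ram P Q (α l) ^ ((A l).card / 2) * ram P Q (α l) ^ ((A l).card / 2)) := by
      intro l
      have h2 : ∀ i, order (hm P Q e (c (Sum.inl i))) (α l) =
          order (c (Sum.inl i)) (ratl P Q (α l)) * ram P Q (α l) := fun i =>
        order_hm hPQ (hc (f l) _ (hα' l).2 _) (he _) (hα' l).1
      simp only [h2]
      rw [Finset.prod_mul_distrib, Finset.prod_const, ← pow_add]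
      congr 2
      have := hA2 l
      obtain ⟨u, hu⟩ := this
      omega
    simp only [h1] at hsq
    rw [Finset.prod_mul_distrib, Finset.prod_mul_distrib] at hsq
    refine isSquare_of_mul (r := ∏ l, ram P Q (α l) ^ ((A l).card / 2)) ?_ hsq
    exact Finset.prod_pos fun l _ => pow_pos (ram_pos hPQ (hα' l).1) _
  · refine h.2.2 s (fun l => ratl P Q (α l)) b
      (fun l hl => ((mem_preR hPQ _ _).1 (hα l hl)).2) hs fun l hl => ?_
    have h0 := (mem_preR hPQ _ _).1 (hα l hl)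
    have h1 := hb l hl
    have h2 : ∀ j, (order (hm P Q e (c (Sum.inr j))) (α l) : ℤ) =
        (order (c (Sum.inr j)) (ratl P Q (α l)) : ℤ) * (ram P Q (α l) : ℕ) := by
      intro j
      rw [order_hm hPQ (hc l _ h0.2 _) (he _) h0.1]
      push_cast
      rfl
    simp only [h2, ← mul_assoc] at h1
    rw [← Finset.sum_mul, mul_eq_zero] at h1
    rcases h1 with h1 | h1
    · exact h1
    · have := ram_pos hPQ h0.1
      exact absurd h1 (by exact_mod_cast this.ne')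

/-- **The theorem for the pull-back by a rational function.** -/
theorem pulledE (K : Subfield ℂ) [Countable K] (κ : Type) [Finite κ] (N n k₀ m M T : ℕ)
    (G : κ → MvPolynomial (Fin (N + 1)) (Polynomial K)) (hG : ∀ k, ∃ e, (G k).IsHomogeneous e)
    (A B : Fin n ⊕ Fin k₀ → MvPolynomial (Fin (N + 1)) (Polynomial K)) (δ : Fin n ⊕ Fin k₀ → ℕ)
    (hA : ∀ i, (A i).IsHomogeneous (δ i)) (hB : ∀ i, (B i).IsHomogeneous (δ i))
    (R : Fin n → Polynomial (Polynomial K)) (hR : ∀ i, (R i).Monic)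
    (hT : ∀ i u w, ((R i).coeff u).coeff w ≠ 0 → u ≤ T ∧ w ≤ T)
    (c : Fin n ⊕ Fin k₀ → Polynomial K) (D : Fin M → Finset ℂ)
    (hD : ∀ l, ∀ α ∈ D l, IsAlgebraic K α)
    (hind : Independent m T c D) (hpos : ∀ l, ∀ α ∈ D l, InGeneralPosition α m G A B)
    (Γ : Finset ℂ) (hΓ : ∀ γ ∈ Γ, IsAlgebraic K γ) (F : Finset ℂ)
    (hF : ∀ z ∈ F, IsAlgebraic K z) (P Q : Polynomial K) (hPQ : NonConst P Q) :
    ((∀ I : Finset (Fin M), M ≤ I.card + (L1 n m + L2 k₀ m) →
        3 ≤ (I.biUnion fun l => preR P Q (D l)).card) →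
      {s : ℂ | s ∈ Subfield.closure (F : Set ℂ) ∧ Polynomial.aeval s Q ≠ 0 ∧
        ¬ NoAtypical (algebraMap (Algebra.adjoin ℤ (Γ : Set ℂ)) ℂ) K m
          (scaledImage (ratl P Q s) G A B R c)}.Finite) ∧
    ((∀ I : Finset (Fin M), M ≤ I.card + (L1 n m + L2 k₀ m) →
        2 ≤ (I.biUnion fun l => preR P Q (D l)).card) →
      {s : ℂ | s ∈ Subring.closure (F : Set ℂ) ∧ Polynomial.aeval s Q ≠ 0 ∧
        ¬ NoAtypical (algebraMap (Algebra.adjoin ℤ (Γ : Set ℂ)) ℂ) K m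
          (scaledImage (ratl P Q s) G A B R c)}.Finite) ∧
    ((∀ I : Finset (Fin M), M ≤ I.card + (L1 n m + L2 k₀ m) →
        ∃ a ∈ I.biUnion fun l => preR P Q (D l), a ≠ 0) →
      {s : ℂ | (s ∈ Subring.closure (F : Set ℂ) ∧ s ≠ 0 ∧ s⁻¹ ∈ Subring.closure (F : Set ℂ)) ∧
        Polynomial.aeval s Q ≠ 0 ∧
        ¬ NoAtypical (algebraMap (Algebra.adjoin ℤ (Γ : Set ℂ)) ℂ) K m
          (scaledImage (ratl P Q s) G A B R c)}.Finite) := by
  obtain ⟨e, eG, eA, eB, ec⟩ := exists_bound G A B c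
  have key := Pool.Agent.R424.FD.family K κ N n k₀ m M T
    (fun k => hmv P Q e (G k))
    (fun k => by
      obtain ⟨d, hd⟩ := hG k
      exact ⟨d, hom_hmv P Q e hd⟩)
    (fun i => MvPolynomial.C (Q ^ e) * hmv P Q e (A i)) (fun i => hmv P Q e (B i)) δ
    (fun i => hom_C_mul _ (hom_hmv P Q e (hA i))) (fun i => hom_hmv P Q e (hB i)) R hR hT
    (fun i => hm P Q e (c i)) (fun l => preR P Q (D l))
    (fun l β hβ => by
      rw [mem_preR hPQ] at hβ
      exact alg_preR hPQ hβ.1 (hD l _ hβ.2))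
    (ind_hmE hPQ m T c ec D hind)
    (fun l β hβ => by
      rw [mem_preR hPQ] at hβ
      exact pos_hmv P Q β G A B eG eA eB hβ.1 (hpos l _ hβ.2))
    Γ hΓ F hF
  obtain ⟨k1, k2, k3⟩ := key
  refine ⟨fun h => (k1 h).subset ?_, fun h => (k2 h).subset ?_, fun h => (k3 h).subset ?_⟩
  · rintro s ⟨h1, h2, h3⟩
    refine ⟨h1, ?_⟩
    rwa [scaledImage_hmv P Q s G A B R c eG eA eB ec h2]
  · rintro s ⟨h1, h2, h3⟩
    refine ⟨h1, ?_⟩
    rwa [scaledImage_hmv P Q s G A B R c eG eA eB ec h2]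
  · rintro s ⟨h1, h2, h3⟩
    refine ⟨h1, ?_⟩
    rwa [scaledImage_hmv P Q s G A B R c eG eA eB ec h2]

end Run7.h383.MO
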