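import Pool.Agent.R424.FD.FamM
import Pool.Agent.Y152.RP.FamM

/-!
Families of subvarieties of `Y_1 × … × Y_n × G_m^k` with few degenerate members at rational parameters
and sets `P` of algebraic parameters: from the arithmetic of the parameters to the absence of atypical
intersections. Adapted from `Pool.Agent.Y152.RP.FamM.family` (with `Pool.Agent.R424.FD.coreME` in place
of `Pool.Agent.Y152.RP.coreMV`).
-/

set_option autoImplicit false

namespace Run7.h383.MO

open H294ZP UpperHalfPlane MvPolynomial Pool.Agent.W282.ZP Pool.Agent.Y152.BD Pool.Agent.Y152.RP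
open Pool.Agent.Y152.RP.FamM (SpecialVariety SpecialVariety.locus coset NoAtypical evalAt OnB
  InGeneralPosition valueAt scaledImage ManyPrimes rel_of_locus)
open Pool.Agent.R424.FD (L1 L2 coreME)

/-- The exponents `e l i` at the `M` degenerate members are positive and independent. For the modular
coordinates they are independent modulo squares: if `A l` are sets of modular coordinates with an even
number of elements, not all empty, for `min (m + 1) (n - 1) + 1` different indices `f l`, and every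
coordinate lies in an even number of them, then `q ∏_l ∏_{i ∈ A l} e (f l) i` is not a square for any
positive integer `q` which is at most `T` to the power `2 ∑ |A l|` and has no prime factor larger than
`T`. For the torus coordinates any `k` of the vectors of the exponents are linearly independent. -/
def IndependentRat {n k M : ℕ} (m T : ℕ) (e : Fin M → Fin n ⊕ Fin k → ℕ) : Prop :=
  (∀ l i, 0 < e l i) ∧
  (∀ (f : Fin (L1 n m + 1) → Fin M), Function.Injective f →
    ∀ A : Fin (L1 n m + 1) → Finset (Fin n),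
    (∃ l, (A l).Nonempty) → (∀ l, Even (A l).card) →
    (∀ i, Even (Finset.univ.filter fun l => i ∈ A l).card) →
    ∀ q, 0 < q → (∀ p, p.Prime → p ∣ q → p ≤ T) → q ≤ T ^ (2 * ∑ l, (A l).card) →
      ¬ IsSquare (q * ∏ l, ∏ i ∈ A l, e (f l) (Sum.inl i))) ∧
  ∀ (s : Finset (Fin M)) (b : Fin k → ℤ), k ≤ s.card →
      (∀ l ∈ s, ∑ j, b j * (e l (Sum.inr j) : ℤ) = 0) → b = 0

/-- One-parameter families which degenerate at sufficiently many rational parameters, and the members
with parameter in `P`. -/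
theorem familyE (K : Subfield ℂ) [Countable K] (κ : Type) [Finite κ] (N n k₀ m M T : ℕ)
    (G : κ → MvPolynomial (Fin (N + 1)) (Polynomial K)) (hG : ∀ k, ∃ e, (G k).IsHomogeneous e)
    (A B : Fin n ⊕ Fin k₀ → MvPolynomial (Fin (N + 1)) (Polynomial K)) (δ : Fin n ⊕ Fin k₀ → ℕ)
    (hA : ∀ i, (A i).IsHomogeneous (δ i)) (hB : ∀ i, (B i).IsHomogeneous (δ i))
    (R : Fin n → Polynomial (Polynomial K)) (hR : ∀ i, (R i).Monic)
    (hT : ∀ i u w, ((R i).coeff u).coeff w ≠ 0 → u ≤ T ∧ w ≤ T)
    (c : Fin n ⊕ Fin k₀ → Polynomial K) (α : Fin M → ℚ)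
    (hind : IndependentRat m T fun l i => (c i).rootMultiplicity ((α l : ℚ) : K))
    (hpos : ∀ l, InGeneralPosition ((α l : ℚ) : ℂ) m G A B) (Γ : Finset ℂ)
    (hΓ : ∀ γ ∈ Γ, γ ∈ K) (P : Set ℂ) (hP : ∀ t ∈ P, IsAlgebraic ℤ t)
    (hL : L1 n m + L2 k₀ m + 1 ≤ M)
    (hmany : ManyPrimes P (L1 n m + L2 k₀ m + 1) α) :
      {t : ℂ | t ∈ P ∧ ¬ NoAtypical (algebraMap (Algebra.adjoin ℤ (Γ : Set ℂ)) ℂ) K m
        (scaledImage t G A B R c)}.Finite := by
  classical
  let k := algebraicClosure K ℂ
  have hcl : IsAlgClosure K k := inferInstance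
  have hac : IsAlgClosed k := hcl.isAlgClosed
  let φ : Polynomial K →+* Polynomial k := Polynomial.mapRingHom (algebraMap K k)
  have hcast : ∀ t : ℚ, algebraMap k ℂ ((t : ℚ) : k) = (t : ℂ) := fun t => map_ratCast _ t
  have hev : ∀ (t : k), (algebraMap k ℂ).comp ((Polynomial.evalRingHom t).comp φ) =
      evalAt K (algebraMap k ℂ t) := by
    intro t
    refine Polynomial.ringHom_ext (fun a => ?_) ?_
    · simp only [φ, evalAt, RingHom.comp_apply, Polynomial.coe_mapRingHom, Polynomial.map_C,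
        Polynomial.coe_evalRingHom, Polynomial.eval_C, AlgHom.toRingHom_eq_coe, RingHom.coe_coe,
        Polynomial.aeval_C]
      rfl
    · simp only [φ, evalAt, RingHom.comp_apply, Polynomial.coe_mapRingHom, Polynomial.map_X,
        Polynomial.coe_evalRingHom, Polynomial.eval_X, AlgHom.toRingHom_eq_coe, RingHom.coe_coe,
        Polynomial.aeval_X]
  have hspec : ∀ (t : k) (P : MvPolynomial (Fin (N + 1)) (Polynomial K)) (y : Fin (N + 1) → ℂ),
      aeval y (Pool.Agent.TH526.ZL.spec t (MvPolynomial.map φ P)) =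
        eval₂ (evalAt K (algebraMap k ℂ t)) y P := by
    intro t P y
    rw [Pool.Agent.TH526.ZL.spec, MvPolynomial.map_map, aeval_def, eval₂_map, hev]
  have hmult : ∀ (l : Fin M) (i : Fin n ⊕ Fin k₀), (φ (c i)).rootMultiplicity ((α l : ℚ) : k) =
      (c i).rootMultiplicity ((α l : ℚ) : K) := by
    intro l i
    have h1 := Polynomial.eq_rootMultiplicity_map (p := c i) (f := algebraMap K k)
      (algebraMap K k).injective ((α l : ℚ) : K)
    rw [map_ratCast] at h1
    exact h1.symm
  let Γ' : Set k := (fun γ : Γ => algebraMap K k ⟨γ, hΓ γ γ.2⟩) '' Set.univ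
  have hΓ' : algebraMap k ℂ '' Γ' = (Γ : Set ℂ) := by
    ext z
    constructor
    · rintro ⟨_, ⟨g, -, rfl⟩, rfl⟩
      exact g.2
    · intro hz
      exact ⟨_, ⟨⟨z, hz⟩, trivial, rfl⟩, rfl⟩
  have hM0 : 0 < M := by omega
  have hc0 : ∀ i, φ (c i) ≠ 0 := by
    intro i h0
    have h1 : 0 < (c i).rootMultiplicity ((α ⟨0, hM0⟩ : ℚ) : K) := hind.1 ⟨0, hM0⟩ i
    rw [← hmult, h0, Polynomial.rootMultiplicity_zero] at h1
    exact lt_irrefl _ h1
  obtain ⟨W, hW, hΓW, hnear⟩ := nearI (k := k) (m := m) (M := M)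
    (fun i => MvPolynomial.map φ (G i))
    (fun i => by
      obtain ⟨e, he⟩ := hG i
      exact ⟨e, he.map _⟩)
    (fun i => MvPolynomial.map φ (A i)) (fun i => MvPolynomial.map φ (B i)) δ
    (fun i => (hA i).map _) (fun i => (hB i).map _)
    (fun i => (R i).map φ) (fun i => φ (c i)) (fun l => ((α l : ℚ) : k)) hc0
    (fun l I hI y h1 h2 => by
      by_contra h0
      obtain ⟨i, hi, h3⟩ := hpos l I hI y ⟨h0, fun i => by
        have h4 := h1 i
        rw [hspec, hcast] at h4
        exact h4⟩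
      apply h3
      have h4 := h2 i hi
      rw [hspec, hspec, hcast] at h4
      exact h4)
    Γ' (Set.toFinite _)
  have hRk : ∀ i, ((R i).map φ).Monic := fun i => (hR i).map _
  have hTk : ∀ i u w, (((R i).map φ).coeff u).coeff w ≠ 0 → u ≤ T ∧ w ≤ T := by
    intro i u w h0
    rw [Polynomial.coeff_map] at h0
    change ((Polynomial.mapRingHom (algebraMap K k)) ((R i).coeff u)).coeff w ≠ 0 at h0
    rw [Polynomial.coe_mapRingHom, Polynomial.coeff_map] at h0
    exact hT i u w fun h1 => h0 (by rw [h1, map_zero])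
  -- the parameter as an element of `k`
  have hk : ∀ t : ℂ, t ∈ P → ∃ t' : k, algebraMap k ℂ t' = t := by
    intro t ht
    have h1 : IsAlgebraic ℤ t := hP t ht
    have h2 : IsAlgebraic K t := h1.extendScalars (Int.cast_injective (α := K))
    exact ⟨⟨t, mem_algebraicClosure_iff.2 h2⟩, rfl⟩
  have hΓV : ∀ V : ValuationSubring ℂ, (∀ z ∈ W, algebraMap k ℂ z ∈ V) →
      ∀ z ∈ Γ', algebraMap k ℂ z ∈ V := fun V hV z hz => hV z (hΓW hz)
  obtain ⟨D, hD⟩ := exists_placesU (k := k) (L := L1 n m + L2 k₀ m + 1) W hW α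
  refine ((hmany D).union (Set.finite_range fun l => ((α l : ℚ) : ℂ))).subset ?_
  rintro t ⟨htd, ht⟩
  by_cases htα : t ∈ Set.range fun l => ((α l : ℚ) : ℂ)
  · exact Or.inr htα
  refine Or.inl ⟨htd, ?_⟩
  rintro ⟨f, hf, F, hF, hFt, hp⟩
  obtain ⟨t', rfl⟩ := hk t htd
  apply ht
  intro r Z Mu η hη
  have hηint : ∀ j, IsIntegral (Algebra.adjoin ℤ (algebraMap k ℂ '' Γ')) (η j) ∧
      IsIntegral (Algebra.adjoin ℤ (algebraMap k ℂ '' Γ')) (η j)⁻¹ := by
    intro j
    rw [hΓ']
    exact ⟨(hη j).2.1, (hη j).2.2⟩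
  have hpt : ∀ x ∈ scaledImage (algebraMap k ℂ t') G A B R c,
      (fun i => x (Sum.inl i)) ∈ Z.locus → (fun j => x (Sum.inr j)) ∈ coset Mu η →
      ∀ S : Finset (Fin n ⊕ Fin k₀), AlgebraicIndependent K (fun i : S => x i) →
      S.card + n + Module.finrank ℤ Mu ≤ r + m := by
    rintro x ⟨hx0, y, hy, ⟨s, hxy⟩, hxy2⟩ hxZ hxC S hS
    have hSk : AlgebraicIndependent k (fun i : S => x i) := hS.extendScalars k
    choose V hV1 hVW hVx using hD t' f F hF hFt hp S _ hSk
    have h1 : ∀ i, Z.cls i = none →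
        IsIntegral (Algebra.adjoin ℤ (algebraMap k ℂ '' Γ')) (x (Sum.inl i)) := by
      intro i hi
      obtain ⟨z, hz⟩ := hxZ
      have h2 : x (Sum.inl i) = Z.const i := (hz i).1 hi
      rw [hΓ', h2]
      rcases Z.allowed i with ⟨τ, hτ, hc⟩ | h
      · rw [hc]
        exact (singular_modulus_integral τ hτ).tower_top
      · exact h
    have h2 : ∀ i, Polynomial.eval₂
        (Polynomial.aeval (x (Sum.inl i)) : Polynomial k →ₐ[k] ℂ).toRingHom (s i)
        ((R i).map φ) = 0 := by
      intro i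
      rw [Polynomial.eval₂_map]
      have h1 : ((Polynomial.aeval (x (Sum.inl i)) : Polynomial k →ₐ[k] ℂ).toRingHom).comp φ =
          (Polynomial.aeval (x (Sum.inl i)) : Polynomial K →ₐ[K] ℂ).toRingHom := by
        ext z
        · simp [φ]
        · simp [φ]
      rw [h1]
      exact (hxy i).1
    have hcev : ∀ i, algebraMap k ℂ ((φ (c i)).eval t') = evalAt K (algebraMap k ℂ t') (c i) := by
      intro i
      rw [← hev t']
      rfl
    -- the coordinates which are compared with the quotients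
    let sx : Fin n ⊕ Fin k₀ → ℂ := Sum.elim s fun j => x (Sum.inr j)
    have h4 : ∀ i, algebraMap k ℂ ((φ (c i)).eval t') *
        aeval y (Pool.Agent.TH526.ZL.spec t' (MvPolynomial.map φ (B i))) * sx i =
        aeval y (Pool.Agent.TH526.ZL.spec t' (MvPolynomial.map φ (A i))) := by
      rintro (i | j)
      · rw [hspec, hspec, hcev]
        exact (hxy i).2
      · rw [hspec, hspec, hcev]
        exact hxy2 j
    refine coreME (Λ := k) (F := k) (m := m) (T := T) (fun i => (R i).map φ) hRk hTk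
      (fun l i => (φ (c i)).rootMultiplicity ((α (f l) : ℚ) : k))
      (fun l i => by
        rw [hmult]
        exact hind.1 (f l) i)
      (fun f' hf' A' hA0 hA1 hA2 q hq hqp hqT => by
        have h5 := hind.2.1 (fun l => f (f' l)) (hf.comp hf') A' hA0 hA1 hA2 q hq hqp hqT
        simp only [hmult]
        exact h5)
      (fun u b hu hb => hind.2.2 (u.map ⟨f, hf⟩) b (by rw [Finset.card_map]; exact hu)
        (fun l hl => by
          obtain ⟨l', hl', rfl⟩ := Finset.mem_map.1 hl
          have h5 := hb l' hl'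
          simp only [hmult] at h5
          exact h5))
      Z.cls (fun i => (Z.mat i).det.toNat) x s Mu η
      (fun i => by
        have := Z.det_pos i
        omega)
      (fun i hi => alg_of_int Γ' (h1 i hi)) (fun i j l hi hj => by
        have h5 := rel_of_locus Z hxZ i j l hi hj
        rw [Pool.Agent.R424.FD.toNat_mul' (Z.det_pos i) (Z.det_pos j)] at h5
        exact h5)
      h2 hx0 (fun j => ?_) hxC.2 S hSk hSk V
      (fun l => (V l).valuation (algebraMap k ℂ (t' - ((α (f l) : ℚ) : k))))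
      (fun l => ?_) hV1
      (fun l i hi => v_le_of_int Γ' (V l) (hΓV _ (hVW l)) (h1 i hi))
      (fun l => (hnear (V l) (hVW l)).1) hVx (fun l j => ?_) (fun l => ?_)
    · have h5 : IsAlgebraic k (η j) := alg_of_int Γ' (hηint j).1
      have h6 : IsAlgebraic K (η j) := by
        have : Algebra.IsAlgebraic K k := hcl.isAlgebraic
        exact h5.restrictScalars K
      exact ⟨⟨η j, mem_algebraicClosure_iff.2 h6⟩, rfl⟩
    · intro h0
      have h5 : algebraMap k ℂ (t' - ((α (f l) : ℚ) : k)) = 0 := (map_eq_zero _).1 h0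
      rw [map_sub, hcast, sub_eq_zero] at h5
      exact htα ⟨f l, h5.symm⟩
    · refine le_antisymm (v_le_of_int Γ' (V l) (hΓV _ (hVW l)) (hηint j).1) ?_
      have h5 := v_le_of_int Γ' (V l) (hΓV _ (hVW l)) (hηint j).2
      rw [map_inv₀] at h5
      have h6 : (V l).valuation (η j) ≠ 0 := (Valuation.ne_zero_iff _).2 (hη j).1
      exact (inv_le_one₀ (zero_lt_iff.2 h6)).1 h5
    · obtain ⟨E, hE, hE'⟩ := (hnear (V l) (hVW l)).2 (f l) t' (hV1 l) sx y hy.1 (fun i => by
        rw [hspec]
        exact hy.2 i) h4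
      exact ⟨E, hE, fun i hi => hE' _ hi, fun j hj => hE' _ hj⟩
  refine ⟨?_, hpt⟩
  intro W' hW' hcl' hprime
  obtain ⟨w, hw⟩ := nonempty_of_prime hprime
  obtain ⟨x, hxW, hx0, T', hT', hdim⟩ := Pool.Agent.W282.SI.generic_dim' K W' hprime
    (β := Fin k₀) (fun j => X (Sum.inr j)) (by
      intro j hj
      rw [mem_idealOf] at hj
      have h2 := hj w hw
      rw [eval_X] at h2
      exact (hW' hw).1.1 j h2)
  have hxA : x ∈ W' := hcl' x hxW fun j => by
    have h2 := hx0 j
    rwa [eval_X] at h2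
  have h2 := hpt x (hW' hxA).1 (hW' hxA).2.1 (hW' hxA).2.2 T' hT'
  calc zdim W' + (n : Cardinal) + (Module.finrank ℤ Mu : Cardinal) ≤
        (T'.card : Cardinal) + (n : Cardinal) + (Module.finrank ℤ Mu : Cardinal) := by gcongr
    _ = ((T'.card + n + Module.finrank ℤ Mu : ℕ) : Cardinal) := by push_cast; rfl
    _ ≤ ((r + m : ℕ) : Cardinal) := by exact_mod_cast h2
    _ = (r : Cardinal) + (m : Cardinal) := by push_cast; rfl

end Run7.h383.MO
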