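import Pool.Agent.Run7.h383.MO.Defs
import Pool.Agent.R424.MX.Rat

/-!
One-parameter families of subsets of `Y(1)^n × G_m^k`: parameters in the orbits of a semigroup of
rational functions, and in the images of finitely generated multiplicative groups.
-/

set_option autoImplicit false

namespace Run7.h383.MO

open MvPolynomial Pool.Agent.R424.MX Pool.Agent.Y152.RP.FamM

variable {K : Subfield ℂ} {r : ℕ}

theorem value_iff (Φ : Maps K r) (w : List (Fin r)) (s t : ℂ) :
    Value Φ w s t ↔ Polynomial.aeval s (wp Φ w).2 ≠ 0 ∧ ratl (wp Φ w).1 (wp Φ w).2 s = t := by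
  unfold Value
  rw [act_wp]
  rfl

/-- the set of the numbers with value in one of the sets `D l`, `l ∈ I` -/
def preV {M : ℕ} (Φ : Maps K r) (D : Fin M → Finset ℂ) (w : List (Fin r)) (I : Finset (Fin M)) :
    Set ℂ :=
  {s | ∃ l ∈ I, ∃ α ∈ D l, Value Φ w s α}

/-- a composite with a finite nonempty set of preimages is not constant -/
theorem nonconst_of {M : ℕ} (Φ : Maps K r) (D : Fin M → Finset ℂ) (w : List (Fin r))
    (I : Finset (Fin M)) (h1 : (preV Φ D w I).Finite) (h2 : (preV Φ D w I).Nonempty) :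
    NonConst (wp Φ w).1 (wp Φ w).2 := by
  intro α hα
  obtain ⟨s₀, l, hl, a, ha, hs₀⟩ := h2
  rw [value_iff] at hs₀
  have hval : ∀ s : ℂ, Polynomial.aeval s (wp Φ w).2 ≠ 0 → ratl (wp Φ w).1 (wp Φ w).2 s = α := by
    intro s hs
    have h3 := congrArg (Polynomial.eval s) hα
    simp only [Polynomial.eval_sub, Polynomial.eval_mul, Polynomial.eval_C,
      Polynomial.eval_map_algebraMap, Polynomial.eval_zero] at h3
    unfold ratl
    rw [div_eq_iff hs]
    linear_combination h3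
  have hαa : α = a := (hval s₀ hs₀.1).symm.trans hs₀.2
  have hQ : ((wp Φ w).2.map (algebraMap K ℂ)) ≠ 0 := by
    intro h0
    apply hs₀.1
    rw [← Polynomial.eval_map_algebraMap, h0, Polynomial.eval_zero]
  have h3 : {s : ℂ | Polynomial.aeval s (wp Φ w).2 ≠ 0} ⊆ preV Φ D w I := by
    intro s hs
    refine ⟨l, hl, a, ha, (value_iff Φ w s a).2 ⟨hs, ?_⟩⟩
    rw [hval s hs, hαa]
  have h4 : ({s : ℂ | Polynomial.aeval s (wp Φ w).2 ≠ 0}ᶜ).Finite := by
    have : {s : ℂ | Polynomial.aeval s (wp Φ w).2 ≠ 0}ᶜ ⊆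
        (((wp Φ w).2.map (algebraMap K ℂ)).roots.toFinset : Set ℂ) := by
      intro s hs
      simp only [Set.mem_compl_iff, Set.mem_ofPred_eq, not_not] at hs
      simp only [Finset.mem_coe, Multiset.mem_toFinset, Polynomial.mem_roots hQ,
        Polynomial.IsRoot, Polynomial.eval_map_algebraMap]
      exact hs
    exact (Finset.finite_toSet _).subset this
  have h5 : (Set.univ : Set ℂ).Finite := by
    rw [← Set.union_compl_self {s : ℂ | Polynomial.aeval s (wp Φ w).2 ≠ 0}]
    exact (h1.subset h3).union h4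
  exact Set.infinite_univ h5

theorem preR_eq {M : ℕ} (Φ : Maps K r) (D : Fin M → Finset ℂ) (w : List (Fin r))
    (h : NonConst (wp Φ w).1 (wp Φ w).2) (I : Finset (Fin M)) :
    ((I.biUnion fun l => preR (wp Φ w).1 (wp Φ w).2 (D l) : Finset ℂ) : Set ℂ) =
      preV Φ D w I := by
  classical
  ext s
  simp only [Finset.coe_biUnion, Set.mem_iUnion, Finset.mem_coe, mem_preR h, preV,
    Set.mem_ofPred_eq, value_iff]
  constructor
  · rintro ⟨l, hl, h1, h2⟩
    exact ⟨l, hl, _, h2, h1, rfl⟩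
  · rintro ⟨l, hl, a, ha, h1, h2⟩
    exact ⟨l, hl, h1, h2 ▸ ha⟩

/-- the statements for the pull-backs by the nonconstant rational functions over `K` -/
def Pulls (K : Subfield ℂ) {M : ℕ} (L : ℕ) (D : Fin M → Finset ℂ) (Bad : ℂ → Prop) : Prop :=
  ∀ F : Finset ℂ, (∀ z ∈ F, IsAlgebraic K z) → ∀ P Q : Polynomial K, NonConst P Q →
    ((∀ I : Finset (Fin M), M ≤ I.card + L →
        3 ≤ (I.biUnion fun l => preR P Q (D l)).card) →
      {s : ℂ | s ∈ Subfield.closure (F : Set ℂ) ∧ Polynomial.aeval s Q ≠ 0 ∧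
        Bad (ratl P Q s)}.Finite) ∧
    ((∀ I : Finset (Fin M), M ≤ I.card + L →
        ∃ a ∈ I.biUnion fun l => preR P Q (D l), a ≠ 0) →
      {s : ℂ | (s ∈ Subring.closure (F : Set ℂ) ∧ s ≠ 0 ∧ s⁻¹ ∈ Subring.closure (F : Set ℂ)) ∧
        Polynomial.aeval s Q ≠ 0 ∧ Bad (ratl P Q s)}.Finite)

/-- a word of the given length: the exceptional parameters are the values at finitely many numbers -/
theorem word_abs {M L : ℕ} {D : Fin M → Finset ℂ} {Bad : ℂ → Prop} (hp : Pulls K L D Bad)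
    (F : Finset ℂ) (hF : ∀ z ∈ F, IsAlgebraic K z) (Φ : Maps K r) (w : List (Fin r))
    (hw : ∀ I : Finset (Fin M), M ≤ I.card + L → 3 ≤ (preV Φ D w I).ncard) :
    {t : ℂ | (∃ s ∈ Subfield.closure (F : Set ℂ), Value Φ w s t) ∧ Bad t}.Finite := by
  classical
  have hu := hw Finset.univ (by rw [Finset.card_univ, Fintype.card_fin]; omega)
  have hfin : (preV Φ D w Finset.univ).Finite := Set.finite_of_ncard_ne_zero (by omega)
  have hne : (preV Φ D w Finset.univ).Nonempty := Set.nonempty_of_ncard_ne_zero (by omega)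
  have hnc := nonconst_of Φ D w Finset.univ hfin hne
  obtain ⟨h1, -⟩ := hp F hF (wp Φ w).1 (wp Φ w).2 hnc
  have h2 := h1 fun I hI => by
    have h3 := hw I hI
    rw [← preR_eq Φ D w hnc I, Set.ncard_coe_finset] at h3
    exact h3
  refine (h2.image fun s => ratl (wp Φ w).1 (wp Φ w).2 s).subset ?_
  rintro t ⟨⟨s, hs, hst⟩, ht⟩
  rw [value_iff] at hst
  refine ⟨s, ⟨hs, hst.1, ?_⟩, hst.2⟩
  rw [hst.2]
  exact ht

/-- parameters in the orbits of all the elements of a finitely generated field: reduction to the words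
of a given length -/
theorem orbits_abs (Φ : Maps K r) (m₀ : ℕ) (Bad : ℂ → Prop)
    (hword : ∀ w : List (Fin r), w.length = m₀ → ∀ F : Finset ℂ, (∀ z ∈ F, IsAlgebraic K z) →
      {t : ℂ | (∃ s ∈ Subfield.closure (F : Set ℂ), Value Φ w s t) ∧ Bad t}.Finite)
    (F : Finset ℂ) (hF : ∀ z ∈ F, IsAlgebraic K z) :
    {t : ℂ | (∃ s ∈ Subfield.closure (F : Set ℂ), ∃ w : List (Fin r), m₀ ≤ w.length ∧
        Value Φ w s t) ∧ Bad t}.Finite := by
  classical
  -- the finite set of generators, with the coefficients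
  let S : Finset ℂ := Finset.univ.biUnion fun i : Fin r =>
    ((Finset.range (Φ.e i + 1)).image fun j => (((Φ.P i).coeff j : K) : ℂ)) ∪
      ((Finset.range (Φ.e i + 1)).image fun j => (((Φ.Q i).coeff j : K) : ℂ))
  let F' : Finset ℂ := F ∪ S
  have hFF' : (F : Set ℂ) ⊆ (F' : Set ℂ) := by
    intro z hz
    exact Finset.mem_union_left _ hz
  have hF' : ∀ z ∈ F', IsAlgebraic K z := by
    intro z hz
    rcases Finset.mem_union.1 hz with h | h
    · exact hF z h
    · simp only [S, Finset.mem_biUnion, Finset.mem_univ, true_and, Finset.mem_union,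
        Finset.mem_image] at h
      obtain ⟨i, ⟨j, -, rfl⟩ | ⟨j, -, rfl⟩⟩ := h
      · exact isAlgebraic_algebraMap _
      · exact isAlgebraic_algebraMap _
  set E := Subfield.closure (F' : Set ℂ) with hE
  have hEP : ∀ i j, (((Φ.P i).coeff j : K) : ℂ) ∈ E := by
    intro i j
    by_cases hj : j < Φ.e i + 1
    · refine Subfield.subset_closure ?_
      refine Finset.mem_union_right _ ?_
      simp only [S, Finset.mem_biUnion, Finset.mem_univ, true_and, Finset.mem_union,
        Finset.mem_image]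
      exact ⟨i, Or.inl ⟨j, Finset.mem_range.2 hj, rfl⟩⟩
    · have h := Φ.degP i
      rw [Polynomial.coeff_eq_zero_of_natDegree_lt (by omega)]
      exact E.zero_mem
  have hEQ : ∀ i j, (((Φ.Q i).coeff j : K) : ℂ) ∈ E := by
    intro i j
    by_cases hj : j < Φ.e i + 1
    · refine Subfield.subset_closure ?_
      refine Finset.mem_union_right _ ?_
      simp only [S, Finset.mem_biUnion, Finset.mem_univ, true_and, Finset.mem_union,
        Finset.mem_image]
      exact ⟨i, Or.inr ⟨j, Finset.mem_range.2 hj, rfl⟩⟩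
    · have h := Φ.degQ i
      rw [Polynomial.coeff_eq_zero_of_natDegree_lt (by omega)]
      exact E.zero_mem
  -- the words of length `m₀`
  have hfinw : {w : List (Fin r) | w.length = m₀}.Finite := List.finite_length_eq _ _
  have h1 : (⋃ w ∈ {w : List (Fin r) | w.length = m₀},
      {t : ℂ | (∃ s ∈ Subfield.closure (F' : Set ℂ), Value Φ w s t) ∧ Bad t}).Finite := by
    refine hfinw.biUnion fun w hw' => ?_
    exact hword w hw' F' hF'
  have h2 : (⋃ w ∈ {w : List (Fin r) | w.length = m₀},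
      ({(act Φ w (1, 0)).1 / (act Φ w (1, 0)).2, (act Φ w (0, 0)).1 / (act Φ w (0, 0)).2} :
        Set ℂ)).Finite := by
    refine hfinw.biUnion fun w _ => ?_
    exact (Set.finite_singleton _).insert _
  refine (h1.union h2).subset ?_
  rintro t ⟨⟨s, hs, w, hwl, hwt⟩, ht⟩
  have hsplit : w = w.take m₀ ++ w.drop m₀ := (List.take_append_drop m₀ w).symm
  set w1 := w.take m₀ with hw1
  set w2 := w.drop m₀ with hw2
  have hl1 : w1.length = m₀ := by
    rw [hw1, List.length_take]
    exact min_eq_left hwl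
  have hact : act Φ w (s, 1) = act Φ w1 (act Φ w2 (s, 1)) := by
    rw [hsplit, act_append]
  have hsE : s ∈ E := Subfield.closure_mono hFF' hs
  obtain ⟨hm1, hm2⟩ := act_mem Φ E hEP hEQ w2 (s, 1) hsE E.one_mem
  obtain ⟨hv1, hv2⟩ := hwt
  rw [hact] at hv1 hv2
  set z := act Φ w2 (s, 1) with hz
  by_cases hz2 : z.2 = 0
  · right
    rw [Set.mem_iUnion₂]
    refine ⟨w1, hl1, ?_⟩
    by_cases hz1 : z.1 = 0
    · have : z = (0, 0) := Prod.ext hz1 hz2
      rw [this] at hv2
      exact Or.inr hv2.symm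
    · obtain ⟨d, hd, hd2⟩ := act_smul Φ w1 hz1 (1, 0)
      have hz' : z = (z.1 * (1 : ℂ), z.1 * (0 : ℂ)) := by
        rw [mul_one, mul_zero]
        exact Prod.ext rfl hz2
      have hd3 : act Φ w1 z = (d * (act Φ w1 (1, 0)).1, d * (act Φ w1 (1, 0)).2) := by
        rw [← hd2, ← hz']
      rw [hd3] at hv2
      left
      rw [← hv2]
      exact mul_div_mul_left _ _ hd
  · left
    rw [Set.mem_iUnion₂]
    refine ⟨w1, hl1, ⟨z.1 / z.2, E.div_mem hm1 hm2, ?_⟩, ht⟩
    obtain ⟨d, hd, hd2⟩ := act_smul Φ w1 hz2 (z.1 / z.2, 1)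
    have hz' : z = (z.2 * (z.1 / z.2), z.2 * (1 : ℂ)) := by
      rw [mul_one, mul_div_cancel₀ _ hz2]
    have hd3 : act Φ w1 z = (d * (act Φ w1 (z.1 / z.2, 1)).1, d * (act Φ w1 (z.1 / z.2, 1)).2) := by
      rw [← hd2, ← hz']
    rw [hd3] at hv1 hv2
    refine ⟨fun h => hv1 (by simp only [h, mul_zero]), ?_⟩
    rw [← hv2]
    exact (mul_div_mul_left _ _ hd).symm

/-- the orbit of one number: reduction to the words of a given length -/
theorem orbit_abs (Φ : Maps K r) (m₀ : ℕ) (Bad : ℂ → Prop)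
    (hword : ∀ w : List (Fin r), w.length = m₀ → ∀ F : Finset ℂ, (∀ z ∈ F, IsAlgebraic K z) →
      {t : ℂ | (∃ s ∈ Subfield.closure (F : Set ℂ), Value Φ w s t) ∧ Bad t}.Finite)
    (t₀ : ℂ) (ht₀ : IsAlgebraic K t₀) :
    {t : ℂ | (∃ w : List (Fin r), Value Φ w t₀ t) ∧ Bad t}.Finite := by
  have h1 := orbits_abs Φ m₀ Bad hword {t₀}
    (fun z hz => by rw [Finset.mem_singleton.1 hz]; exact ht₀)
  have hfinw : {w : List (Fin r) | w.length < m₀}.Finite := List.finite_length_lt _ _
  have h2 : (⋃ w ∈ {w : List (Fin r) | w.length < m₀},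
      ({(act Φ w (t₀, 1)).1 / (act Φ w (t₀, 1)).2} : Set ℂ)).Finite :=
    hfinw.biUnion fun w _ => Set.finite_singleton _
  refine (h1.union h2).subset ?_
  rintro t ⟨⟨w, hwt⟩, ht⟩
  by_cases hl : m₀ ≤ w.length
  · left
    exact ⟨⟨t₀, Subfield.subset_closure (by simp), w, hl, hwt⟩, ht⟩
  · right
    rw [Set.mem_iUnion₂]
    exact ⟨w, not_le.1 hl, hwt.2.symm⟩

end Run7.h383.MO
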