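import Pool.Agent.Run7.h383.MO.One
import Pool.Agent.Run7.h383.MO.FD

/-!
Parameters in the images of finitely generated rings.
-/

set_option autoImplicit false

namespace Run7.h383.MO

open MvPolynomial Pool.Agent.R424.MX Pool.Agent.Y152.RP.FamM

variable {K : Subfield ℂ} {r : ℕ}

/-- the statement on finitely generated rings for the pull-backs by the nonconstant rational functions
over `K` -/
def PullsR (K : Subfield ℂ) {M : ℕ} (L : ℕ) (D : Fin M → Finset ℂ) (Bad : ℂ → Prop) : Prop :=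
  ∀ F : Finset ℂ, (∀ z ∈ F, IsAlgebraic K z) → ∀ P Q : Polynomial K, NonConst P Q →
    (∀ I : Finset (Fin M), M ≤ I.card + L →
        2 ≤ (I.biUnion fun l => preR P Q (D l)).card) →
      {s : ℂ | s ∈ Subring.closure (F : Set ℂ) ∧ Polynomial.aeval s Q ≠ 0 ∧
        Bad (ratl P Q s)}.Finite

theorem ring_abs {M L : ℕ} {D : Fin M → Finset ℂ} {Bad : ℂ → Prop} (hp : PullsR K L D Bad)
    (F : Finset ℂ) (hF : ∀ z ∈ F, IsAlgebraic K z) (Φ : Maps K r) (w : List (Fin r))
    (hw : ∀ I : Finset (Fin M), M ≤ I.card + L →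
      2 ≤ {s : ℂ | ∃ l ∈ I, ∃ α ∈ D l, Value Φ w s α}.ncard) :
    {s : ℂ | s ∈ Subring.closure (F : Set ℂ) ∧ ∃ t : ℂ, Value Φ w s t ∧ Bad t}.Finite := by
  classical
  change ∀ I : Finset (Fin M), M ≤ I.card + L → 2 ≤ (preV Φ D w I).ncard at hw
  have hu := hw Finset.univ (by rw [Finset.card_univ, Fintype.card_fin]; omega)
  have hfin : (preV Φ D w Finset.univ).Finite := Set.finite_of_ncard_ne_zero (by omega)
  have hne : (preV Φ D w Finset.univ).Nonempty := Set.nonempty_of_ncard_ne_zero (by omega)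
  have hnc := nonconst_of Φ D w Finset.univ hfin hne
  have h2 := hp F hF (wp Φ w).1 (wp Φ w).2 hnc fun I hI => by
    have h3 := hw I hI
    rw [← preR_eq Φ D w hnc I, Set.ncard_coe_finset] at h3
    exact h3
  refine h2.subset ?_
  rintro s ⟨hs, t, hst, ht⟩
  rw [value_iff] at hst
  refine ⟨hs, hst.1, ?_⟩
  rw [hst.2]
  exact ht

end Run7.h383.MO
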